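import Pool.Agent.Helper77.CR.BASE
import Pool.Agent.Helper57.CR.CNT
import Pool.Agent.Helper98.CR.PAIR
import Pool.Agent.Helper40.CR.UNI

/-!
# CR-BW: the flow in a region is between `0` and `π`
-/

namespace Pool.Agent.Helper77.CR

open Pool.Agent.Helper9.FA (Item Cor Ang wfP labels)
open Pool.Agent.Helper9.TW (Lab Conn)
open Pool.Agent.Helper28.TX (PV Pot)

variable {α : Type}

/-- all values at the bottom of a potential occur at the top, at vertices, or at minima and maxima -/
theorem pot_mem {K : Type} {P : List (Item α)} {c0 c1 : K} {c : List K} {θ : List (PV K)}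
    {e : List (Bool × K × K)} (h : Pot c0 c1 P c θ e) {x : K} (hx : x ∈ c) :
    x = c0 ∨ x = c1 ∨ x ∈ θ.flatMap cor ∨ ∃ y ∈ e, x = y.2.1 ∨ x = y.2.2 := by
  induction h with
  | nil =>
    simp only [List.mem_cons, List.not_mem_nil, or_false] at hx
    tauto
  | @cup P l r a m θ e h ih =>
    have hx' : x ∈ l ++ a :: m :: a :: r := by
      simp only [List.mem_append, List.mem_cons] at hx ⊢
      tauto
    rcases ih hx' with h1 | h1 | h1 | ⟨y, hy, h1⟩
    · exact Or.inl h1
    · exact Or.inr (Or.inl h1)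
    · exact Or.inr (Or.inr (Or.inl h1))
    · exact Or.inr (Or.inr (Or.inr ⟨y, List.mem_cons_of_mem _ hy, h1⟩))
  | @cap P l r a m θ e h ih =>
    have hx' : x ∈ l ++ a :: r ∨ x = m := by
      simp only [List.mem_append, List.mem_cons] at hx ⊢
      tauto
    rcases hx' with hx' | hx'
    · rcases ih hx' with h1 | h1 | h1 | ⟨y, hy, h1⟩
      · exact Or.inl h1
      · exact Or.inr (Or.inl h1)
      · exact Or.inr (Or.inr (Or.inl h1))
      · exact Or.inr (Or.inr (Or.inr ⟨y, List.mem_cons_of_mem _ hy, h1⟩))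
    · exact Or.inr (Or.inr (Or.inr ⟨_, List.mem_cons_self, Or.inr hx'⟩))
  | @box P l r b q θ e h ih =>
    have hx' : x ∈ l ++ q.L :: q.T :: q.R :: r ∨ x = q.B := by
      simp only [List.mem_append, List.mem_cons] at hx ⊢
      tauto
    rcases hx' with hx' | hx'
    · rcases ih hx' with h1 | h1 | h1 | ⟨y, hy, h1⟩
      · exact Or.inl h1
      · exact Or.inr (Or.inl h1)
      · refine Or.inr (Or.inr (Or.inl ?_))
        rw [List.flatMap_cons, List.mem_append]
        exact Or.inr h1
      · exact Or.inr (Or.inr (Or.inr ⟨y, hy, h1⟩))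
    · refine Or.inr (Or.inr (Or.inl ?_))
      rw [List.flatMap_cons, List.mem_append]
      left
      simp [cor, hx']

theorem bw_pot_split {K : Type} {Pb X : List (Item α)} {c0 c1 : K} {c : List K} {θ : List (PV K)}
    {e : List (Bool × K × K)} (h : Pot c0 c1 (Pb ++ X) c θ e) :
    ∃ (c' : List K) (θ1 θ2 : List (PV K)) (e1 e2 : List (Bool × K × K)),
      Pot c0 c1 X c' θ2 e2 ∧ θ = θ1 ++ θ2 ∧ θ1.length = (labels Pb).length ∧ e = e1 ++ e2 := by
  induction Pb generalizing c θ e with
  | nil => exact ⟨c, [], θ, [], e, h, rfl, rfl, rfl⟩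
  | cons p Pb ih =>
    cases p with
    | cup k =>
      cases h with
      | cup h =>
        obtain ⟨c', θ1, θ2, e1, e2, h1, h2, h3, h4⟩ := ih h
        exact ⟨c', θ1, θ2, _ :: e1, e2, h1, h2, h3, by rw [h4]; rfl⟩
    | cap k =>
      cases h with
      | cap h =>
        obtain ⟨c', θ1, θ2, e1, e2, h1, h2, h3, h4⟩ := ih h
        exact ⟨c', θ1, θ2, _ :: e1, e2, h1, h2, h3, by rw [h4]; rfl⟩
    | box k b =>
      cases h with
      | box h =>
        obtain ⟨c', θ1, θ2, e1, e2, h1, h2, h3, h4⟩ := ih h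
        exact ⟨c', _ :: θ1, θ2, e1, e2, h1, by rw [h2]; rfl, by simp [labels, h3], h4⟩

theorem bw_labels_append (P Q : List (Item α)) : labels (P ++ Q) = labels P ++ labels Q := by
  induction P with
  | nil => rfl
  | cons p P ih => cases p <;> simp [labels, ih]

theorem bw_angG_len {t d : List ℝ} {P : List (Item α)} {cs : List (Cor ℝ)} (h : AngG t P d cs) :
    cs.length = (labels P).length := by
  induction h with
  | nil => rfl
  | cup h ih => simpa [labels] using ih
  | cap h hab ih => simpa [labels] using ih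
  | box h ih => simpa [labels] using ih

theorem bw_angG_wf {t d : List ℝ} {P : List (Item α)} {cs : List (Cor ℝ)} (h : AngG t P d cs) {m : ℕ}
    (hm : t.length = m + 1) : ∃ n, d.length = n + 1 ∧ wfP n P m := by
  induction h with
  | nil => exact ⟨m, hm, rfl⟩
  | @cup P l r a b cs h ih =>
    obtain ⟨n, h1, h2⟩ := ih
    simp only [List.length_append, List.length_cons] at h1
    refine ⟨n - 2, by simp only [List.length_append, List.length_cons]; omega, by omega, ?_⟩
    have : n - 2 + 2 = n := by omega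
    rwa [this]
  | @cap P l r x a b cs h hab ih =>
    obtain ⟨n, h1, h2⟩ := ih
    simp only [List.length_append, List.length_cons] at h1
    refine ⟨n + 2, by simp only [List.length_append, List.length_cons]; omega, by omega, ?_⟩
    have : n + 2 - 2 = n := by omega
    rwa [this]
  | @box P l r x y b c cs h ih =>
    obtain ⟨n, h1, h2⟩ := ih
    simp only [List.length_append, List.length_cons] at h1
    exact ⟨n, by simp only [List.length_append, List.length_cons]; omega, by omega, h2⟩

theorem bw_wsumA_append {θ1 θ2 : List (PV ℝ)} {us1 us2 : List (Cor ℝ)} (h : θ1.length = us1.length) :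
    wsumA (θ1 ++ θ2) (us1 ++ us2) = wsumA θ1 us1 + wsumA θ2 us2 := by
  unfold wsumA
  rw [List.zipWith_append h, List.sum_append]

theorem bw_wsumA_cons (q : PV ℝ) (θ : List (PV ℝ)) (u : Cor ℝ) (us : List (Cor ℝ)) :
    wsumA (q :: θ) (u :: us) =
      (q.L * u.uL + q.B * u.uB + q.R * u.uR + q.T * u.uT) + wsumA θ us := by
  unfold wsumA
  rw [List.zipWith_cons_cons, List.sum_cons]

theorem bw_fsum_append {F : ℕ} {θ1 θ2 : List (PV ℕ)} {us1 us2 : List (Cor ℝ)}
    (h : θ1.length = us1.length) :
    fsum F (θ1 ++ θ2) (us1 ++ us2) = fsum F θ1 us1 + fsum F θ2 us2 := by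
  unfold fsum
  rw [List.map_append, bw_wsumA_append (by simpa using h)]

/-- all corners are nonnegative -/
def bwNn (us : List (Cor ℝ)) : Prop := ∀ u ∈ us, 0 ≤ u.uL ∧ 0 ≤ u.uR ∧ 0 ≤ u.uB ∧ 0 ≤ u.uT

theorem bw_fsum_nonneg {F : ℕ} {θ : List (PV ℕ)} {us : List (Cor ℝ)} (h : bwNn us) :
    0 ≤ fsum F θ us := by
  unfold fsum
  induction θ generalizing us with
  | nil => simp [wsumA]
  | cons q θ ih =>
    cases us with
    | nil => simp [wsumA]
    | cons u us =>
      rw [List.map_cons, bw_wsumA_cons]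
      have h1 := h u List.mem_cons_self
      have h2 := ih (us := us) (fun v hv => h v (List.mem_cons_of_mem _ hv))
      refine add_nonneg ?_ h2
      have hi : ∀ x : ℕ, (0 : ℝ) ≤ if x = F then (1 : ℝ) else 0 := by
        intro x
        split_ifs <;> norm_num
      simp only [PV.map]
      have a1 := mul_nonneg (hi q.L) h1.1
      have a2 := mul_nonneg (hi q.B) h1.2.2.1
      have a3 := mul_nonneg (hi q.R) h1.2.1
      have a4 := mul_nonneg (hi q.T) h1.2.2.2
      linarith

theorem bw_fsum_le_map {F : ℕ} (g : ℕ → ℕ) {θ : List (PV ℕ)} {us : List (Cor ℝ)} (h : bwNn us) :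
    fsum F θ us ≤ fsum (g F) (θ.map (PV.map g)) us := by
  unfold fsum
  induction θ generalizing us with
  | nil => simp [wsumA]
  | cons q θ ih =>
    cases us with
    | nil => simp [wsumA]
    | cons u us =>
      rw [List.map_cons, List.map_cons, List.map_cons, bw_wsumA_cons, bw_wsumA_cons]
      have h1 := h u List.mem_cons_self
      have h2 := ih (us := us) (fun v hv => h v (List.mem_cons_of_mem _ hv))
      refine add_le_add ?_ h2
      have hi : ∀ x : ℕ, (if x = F then (1 : ℝ) else 0) ≤ if g x = g F then (1 : ℝ) else 0 := by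
        intro x
        by_cases hx : x = F
        · simp [hx]
        · rw [if_neg hx]
          split_ifs <;> norm_num
      simp only [PV.map]
      exact add_le_add (add_le_add (add_le_add (mul_le_mul_of_nonneg_right (hi q.L) h1.1)
        (mul_le_mul_of_nonneg_right (hi q.B) h1.2.2.1))
        (mul_le_mul_of_nonneg_right (hi q.R) h1.2.1))
        (mul_le_mul_of_nonneg_right (hi q.T) h1.2.2.2)

theorem bw_val_ind (F : ℕ) (θ : List (PV ℕ)) (e : List (Bool × ℕ × ℕ)) (us : List (Cor ℝ)) :
    val (θ.map (PV.map fun x => if x = F then (1 : ℝ) else 0))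
      (mE (fun x => if x = F then (1 : ℝ) else 0) e) us =
    fsum F θ us - Real.pi * (EU (θ.map (PV.map fun x => decide (x = F)))
      (mE (fun x => decide (x = F)) e) : ℝ) := by
  have hb : ∀ x : ℕ, ((bz (decide (x = F)) : ℤ) : ℝ) = if x = F then (1 : ℝ) else 0 := by
    intro x
    by_cases hx : x = F <;> simp [hx, bz]
  have h1 : ((mE (fun x => if x = F then (1 : ℝ) else 0) e).map
      fun y => if y.1 = true then -y.2.2 else y.2.1).sum =
      -(((mE (fun x => decide (x = F)) e).map
        fun y => if y.1 = true then bz y.2.2 else -bz y.2.1).sum : ℝ) := by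
    induction e with
    | nil => simp [mE]
    | cons y e ih =>
      unfold mE at ih ⊢
      simp only [List.map_cons, List.sum_cons, Int.cast_add]
      rw [ih]
      obtain ⟨b, x1, x2⟩ := y
      cases b
      · simp [hb]
        ring
      · simp [hb]
        ring
  have h2 : ((θ.map (PV.map fun x => if x = F then (1 : ℝ) else 0)).map PV.T).sum =
      (((θ.map (PV.map fun x => decide (x = F))).map fun q => bz q.T).sum : ℝ) := by
    clear h1
    induction θ with
    | nil => simp
    | cons q θ ih =>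
      simp only [List.map_cons, List.sum_cons, Int.cast_add]
      rw [ih]
      simp [PV.map, hb]
  unfold val EU
  rw [h1, h2]
  unfold fsum
  push_cast
  ring

/-- the sum of the corners in a region of a connected pattern -/
theorem bw_fsum_eq {P : List (Item α)} (hc : Conn P) {d0 d1 : ℕ} {θ : List (PV ℕ)}
    {e : List (Bool × ℕ × ℕ)} (hU : Uni P d0 d1 [d0, d1] θ e) {us : List (Cor ℝ)}
    (h : AngG [0, 0] P [0, 0] us) (F : ℕ) :
    (F ∈ All d0 d1 θ e → fsum F θ us = Real.pi) ∧ ((F = d0 ∨ F = d1) → fsum F θ us = 0) := by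
  obtain ⟨h1, h2, h3, h4⟩ := count_all hc hU
  have hv := val_of_angG h (pot_map (fun x => if x = F then (1 : ℝ) else 0) hU.pot)
  rw [bw_val_ind] at hv
  simp only [List.map_cons, List.map_nil, List.zipWith_cons_cons, List.zipWith_nil_left, mul_zero,
    List.sum_cons, List.sum_nil, add_zero] at hv
  refine ⟨fun hF => ?_, fun hF => ?_⟩
  · rw [h2 F hF] at hv
    push_cast at hv
    linarith
  · have : EU (θ.map (PV.map fun x => decide (x = F))) (mE (fun x => decide (x = F)) e) = 0 := by
      rcases hF with rfl | rfl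
      · exact h3
      · exact h4
    rw [this] at hv
    push_cast at hv
    linarith

theorem bw_mem_ids {c : List ℕ} {θ : List (PV ℕ)} {e : List (Bool × ℕ × ℕ)} {x : ℕ} :
    x ∈ ids c θ e ↔ x ∈ c ∨ x ∈ θ.flatMap cor ∨ ∃ y ∈ e, x = y.2.1 ∨ x = y.2.2 := by
  unfold ids
  simp only [List.mem_toFinset, List.mem_append, List.mem_flatMap, List.mem_cons,
    List.not_mem_nil, or_false, or_assoc]

theorem bw_mem_cor_map {K K' : Type} (h : K → K') (θ : List (PV K)) {x : K'} :
    x ∈ (θ.map (PV.map h)).flatMap cor ↔ ∃ y ∈ θ.flatMap cor, h y = x := by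
  simp only [List.mem_flatMap, List.mem_map]
  constructor
  · rintro ⟨q, ⟨q', hq', rfl⟩, hx⟩
    simp only [cor, PV.map, List.mem_cons, List.not_mem_nil, or_false] at hx
    rcases hx with h | h | h | h
    · exact ⟨q'.L, ⟨q', hq', by simp [cor]⟩, h.symm⟩
    · exact ⟨q'.B, ⟨q', hq', by simp [cor]⟩, h.symm⟩
    · exact ⟨q'.R, ⟨q', hq', by simp [cor]⟩, h.symm⟩
    · exact ⟨q'.T, ⟨q', hq', by simp [cor]⟩, h.symm⟩
  · rintro ⟨y, ⟨q, hq, hy⟩, rfl⟩
    refine ⟨_, ⟨q, hq, rfl⟩, ?_⟩
    simp only [cor, PV.map, List.mem_cons, List.not_mem_nil, or_false] at hy ⊢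
    rcases hy with h | h | h | h <;> rw [h] <;> simp

/-- the inserted vertex has different regions below and above -/
theorem bw_B_ne_T {Pb Q : List (Item α)} {k : ℕ} (a : α) (hc : Conn (Pb ++ Q))
    {c0 c1 : ℕ} {θ : List (PV ℕ)} {e : List (Bool × ℕ × ℕ)} (hU : Uni (Pb ++ Q) c0 c1 [c0, c1] θ e)
    {d0 d1 : ℕ} {θ1 θ2 : List (PV ℕ)} {q : PV ℕ} {e' : List (Bool × ℕ × ℕ)}
    (hU' : Uni (Pb ++ .box k a :: Q) d0 d1 [d0, d1] (θ1 ++ q :: θ2) e')
    (hl : θ1.length = (labels Pb).length) : q.B ≠ q.T := by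
  intro hBT
  have hp := pot_remove hU'.pot hl hBT
  obtain ⟨h, h0, h1, h2, h3, h4⟩ := hU.uni ℕ d0 d1 _ _ _ hp
  obtain ⟨n1, -, -, -⟩ := count_all hc hU
  obtain ⟨m1, -, -, -⟩ := count_all (conn_insert (k := k) a hc) hU'
  have hlen : θ1.length + θ2.length = θ.length := by
    have := congrArg List.length h3
    simpa using this
  -- all names come from the smaller pattern
  have key : ∀ x, (x = d0 ∨ x = d1 ∨ x ∈ (θ1 ++ θ2).flatMap cor ∨
      ∃ y ∈ e', x = y.2.1 ∨ x = y.2.2) → x ≠ d0 → x ≠ d1 → x ∈ (All c0 c1 θ e).image h := by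
    intro x hx hx0 hx1
    have hpre : ∃ y, y ∈ ids [c0, c1] θ e ∧ h y = x := by
      rcases hx with hx | hx | hx | ⟨y, hy, hx⟩
      · exact absurd hx hx0
      · exact absurd hx hx1
      · rw [h3, bw_mem_cor_map] at hx
        obtain ⟨y, hy, hx⟩ := hx
        exact ⟨y, bw_mem_ids.2 (Or.inr (Or.inl hy)), hx⟩
      · rw [h4] at hy
        unfold mE at hy
        rw [List.mem_map] at hy
        obtain ⟨z, hz, rfl⟩ := hy
        rcases hx with hx | hx
        · exact ⟨z.2.1, bw_mem_ids.2 (Or.inr (Or.inr ⟨z, hz, Or.inl rfl⟩)), hx.symm⟩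
        · exact ⟨z.2.2, bw_mem_ids.2 (Or.inr (Or.inr ⟨z, hz, Or.inr rfl⟩)), hx.symm⟩
    obtain ⟨y, hy, rfl⟩ := hpre
    refine Finset.mem_image.2 ⟨y, ?_, rfl⟩
    unfold All
    refine Finset.mem_filter.2 ⟨hy, ?_, ?_⟩
    · rintro rfl
      exact hx0 h0
    · rintro rfl
      exact hx1 h1
  have hsub : All d0 d1 (θ1 ++ q :: θ2) e' ⊆ (All c0 c1 θ e).image h := by
    intro x hx
    unfold All at hx
    obtain ⟨hx, hx0, hx1⟩ := Finset.mem_filter.1 hx
    refine key x ?_ hx0 hx1
    rcases bw_mem_ids.1 hx with hx | hx | hx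
    · simp only [List.mem_cons, List.not_mem_nil, or_false] at hx
      rcases hx with hx | hx
      · exact Or.inl hx
      · exact Or.inr (Or.inl hx)
    · rw [List.flatMap_append, List.flatMap_cons, List.mem_append, List.mem_append] at hx
      rcases hx with hx | hxq | hx
      · refine Or.inr (Or.inr (Or.inl ?_))
        rw [List.flatMap_append, List.mem_append]
        exact Or.inl hx
      · -- the corners of the new vertex
        obtain ⟨c', η1, η2, e1, e2, k1, k2, k3, k4⟩ := bw_pot_split hU'.pot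
        have hη : η1 = θ1 ∧ η2 = q :: θ2 := by
          have := List.append_inj k2 (by rw [hl, k3])
          exact ⟨this.1.symm, this.2.symm⟩
        obtain ⟨rfl, rfl⟩ := hη
        cases k1 with
        | box k1 =>
          rename_i l r
          have hx' : x ∈ l ++ q.L :: q.T :: q.R :: r := by
            simp only [cor, List.mem_cons, List.not_mem_nil, or_false] at hxq
            rw [hBT] at hxq
            simp only [List.mem_append, List.mem_cons]
            tauto
          rcases pot_mem k1 hx' with g | g | g | ⟨y, hy, g⟩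
          · exact Or.inl g
          · exact Or.inr (Or.inl g)
          · refine Or.inr (Or.inr (Or.inl ?_))
            rw [List.flatMap_append, List.mem_append]
            exact Or.inr g
          · refine Or.inr (Or.inr (Or.inr ⟨y, ?_, g⟩))
            rw [k4]
            exact List.mem_append_right _ hy
      · refine Or.inr (Or.inr (Or.inl ?_))
        rw [List.flatMap_append, List.mem_append]
        exact Or.inr hx
    · exact Or.inr (Or.inr (Or.inr hx))
  have hcard := (Finset.card_le_card hsub).trans Finset.card_image_le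
  rw [m1, n1] at hcard
  simp only [List.length_append, List.length_cons] at hcard
  omega

/-- Insert a vertex `w` without angles at the left and right at a place with the flow `z`. -/
theorem bw {Pb Q : List (Item α)} (a : α) (hc : Conn (Pb ++ Q))
    {c0 c1 : ℕ} {θ : List (PV ℕ)} {e : List (Bool × ℕ × ℕ)} (hU : Uni (Pb ++ Q) c0 c1 [c0, c1] θ e)
    {l r : List ℝ} {x y z : ℝ} {us1 us2 : List (Cor ℝ)}
    (hF : FS θ (All c0 c1 θ e) (us1 ++ us2)) (h2 : AngG [0, 0] Q (l ++ x :: z :: y :: r) us2)
    (h1 : AngG (l ++ x :: z :: y :: r) Pb [0, 0] us1) :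
    (0 ≤ z ∧ z ≤ Real.pi) ∧
    ∀ (d0 d1 : ℕ) (θ1 θ2 : List (PV ℕ)) (q : PV ℕ) (e' : List (Bool × ℕ × ℕ)),
      Uni (Pb ++ .box l.length a :: Q) d0 d1 [d0, d1] (θ1 ++ q :: θ2) e' →
      θ1.length = us1.length →
      (q.B = d0 ∨ q.B = d1 → z = 0) ∧ (q.T = d0 ∨ q.T = d1 → z = Real.pi) := by
  -- the new angles
  obtain ⟨w, hwL, hwR, hwB, hwT⟩ : ∃ w : Cor ℝ, w.uL = 0 ∧ w.uR = 0 ∧ w.uB = z ∧
      w.uT = Real.pi - z := ⟨⟨0, 0, 0, z, Real.pi - z⟩, rfl, rfl, rfl, rfl⟩
  have hbox : AngG [0, 0] (.box l.length a :: Q) (l ++ x :: z :: y :: r) (w :: us2) := by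
    have := AngG.box (t := [0, 0]) (P := Q) (l := l) (r := r) (x := x) (y := y) (e := a) (c := w)
      (cs := us2) (by rw [hwT, sub_sub_cancel]; exact h2)
    rwa [hwL, hwR, hwB, add_zero, add_zero] at this
  have hA : AngG [0, 0] (Pb ++ .box l.length a :: Q) [0, 0] (us1 ++ w :: us2) :=
    angG_append hbox h1
  have hc' : Conn (Pb ++ .box l.length a :: Q) := conn_insert a hc
  have hlen1 := bw_angG_len h1
  have hlen2 := bw_angG_len h2
  obtain ⟨n, hn, hwf⟩ := bw_angG_wf h2 (m := 1) rfl
  simp only [List.length_append, List.length_cons] at hn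
  obtain ⟨η1, η2, q', k1, k2, k3, k4⟩ := pot_insert hU.pot (k := l.length) a hwf (by omega)
  have hnn : bwNn (us1 ++ us2) := fun u hu => ⟨(hF.nn u hu).1, (hF.nn u hu).2.1, (hF.nn u hu).2.2.1,
    (hF.nn u hu).2.2.2.1⟩
  have hnn1 : bwNn us1 := fun u hu => hnn u (List.mem_append_left _ hu)
  have hnn2 : bwNn us2 := fun u hu => hnn u (List.mem_append_right _ hu)
  -- the main step
  have main : ∀ (d0 d1 : ℕ) (θ1 θ2 : List (PV ℕ)) (q : PV ℕ) (e' : List (Bool × ℕ × ℕ)),
      Uni (Pb ++ .box l.length a :: Q) d0 d1 [d0, d1] (θ1 ++ q :: θ2) e' →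
      θ1.length = us1.length →
      (0 ≤ z ∧ z ≤ Real.pi) ∧
      (q.B = d0 ∨ q.B = d1 → z = 0) ∧ (q.T = d0 ∨ q.T = d1 → z = Real.pi) := by
    intro d0 d1 θ1 θ2 q e' hU' hl
    have hBT := bw_B_ne_T a hc hU hU' (hl.trans hlen1)
    obtain ⟨g, g0, g1, g2, g3, g4⟩ := hU'.uni ℕ c0 c1 _ _ _ k4
    rw [List.map_append, List.map_cons] at g3
    obtain ⟨g5, g6⟩ := List.append_inj g3 (by rw [List.length_map, k2, hl, hlen1])
    obtain ⟨-, g7⟩ := List.cons.inj g6
    -- the sums
    have hsum : ∀ F, fsum F (θ1 ++ q :: θ2) (us1 ++ w :: us2) =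
        fsum F θ1 us1 + fsum F θ2 us2 + ((if q.B = F then z else 0) +
          if q.T = F then Real.pi - z else 0) := by
      intro F
      rw [bw_fsum_append hl]
      have : fsum F (q :: θ2) (w :: us2) = ((if q.B = F then z else 0) +
          if q.T = F then Real.pi - z else 0) + fsum F θ2 us2 := by
        unfold fsum
        rw [List.map_cons, bw_wsumA_cons, hwL, hwR, hwB, hwT]
        simp only [PV.map, mul_zero, zero_add, add_zero, ite_mul, one_mul, zero_mul]
      rw [this]
      ring
    have hN : ∀ F, 0 ≤ fsum F θ1 us1 + fsum F θ2 us2 := fun F =>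
      add_nonneg (bw_fsum_nonneg hnn1) (bw_fsum_nonneg hnn2)
    have hN0 : ∀ F, (F = d0 ∨ F = d1) → fsum F θ1 us1 + fsum F θ2 us2 = 0 := by
      intro F hF0
      have hg : fsum (g F) θ (us1 ++ us2) = 0 := by
        rw [hF.face]
        refine if_neg fun hm => ?_
        unfold All at hm
        obtain ⟨-, hm0, hm1⟩ := Finset.mem_filter.1 hm
        rcases hF0 with rfl | rfl
        · exact hm0 g0
        · exact hm1 g1
      rw [k1, bw_fsum_append (by rw [k2, hlen1]), g5, g7] at hg
      have b1 := bw_fsum_le_map (F := F) g (θ := θ1) hnn1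
      have b2 := bw_fsum_le_map (F := F) g (θ := θ2) hnn2
      have b3 := hN F
      linarith
    have hfs := bw_fsum_eq hc' hU' hA
    have hcase : ∀ F, F ∈ cor q → (F ∈ All d0 d1 (θ1 ++ q :: θ2) e') ∨ (F = d0 ∨ F = d1) := by
      intro F hFq
      by_cases h0 : F = d0
      · exact Or.inr (Or.inl h0)
      by_cases h1 : F = d1
      · exact Or.inr (Or.inr h1)
      left
      unfold All
      refine Finset.mem_filter.2 ⟨bw_mem_ids.2 (Or.inr (Or.inl ?_)), h0, h1⟩
      rw [List.flatMap_append, List.flatMap_cons, List.mem_append, List.mem_append]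
      exact Or.inr (Or.inl hFq)
    have hB0 : q.B = d0 ∨ q.B = d1 → z = 0 := by
      intro hB
      have e1 := (hfs q.B).2 hB
      rw [hsum, if_pos rfl, if_neg (Ne.symm hBT), hN0 _ hB] at e1
      linarith
    have hT0 : q.T = d0 ∨ q.T = d1 → z = Real.pi := by
      intro hT
      have e1 := (hfs q.T).2 hT
      rw [hsum, if_neg hBT, if_pos rfl, hN0 _ hT] at e1
      linarith
    refine ⟨⟨?_, ?_⟩, hB0, hT0⟩
    · rcases hcase q.T (by simp [cor]) with hT | hT
      · have e1 := (hfs q.T).1 hT
        rw [hsum, if_neg hBT, if_pos rfl] at e1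
        have := hN q.T
        linarith
      · rw [hT0 hT]
        exact Real.pi_pos.le
    · rcases hcase q.B (by simp [cor]) with hB | hB
      · have e1 := (hfs q.B).1 hB
        rw [hsum, if_pos rfl, if_neg (Ne.symm hBT)] at e1
        have := hN q.B
        linarith
      · rw [hB0 hB]
        exact Real.pi_pos.le
  refine ⟨?_, fun d0 d1 θ1 θ2 q e' hU' hl => (main d0 d1 θ1 θ2 q e' hU' hl).2⟩
  -- existence of a universal potential
  obtain ⟨n', hn', hwf'⟩ := pot_wf k4
  obtain ⟨d0, d1, c, θ', e', hU'⟩ := exists_uni hwf'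
  have hcc : c = [d0, d1] := by
    obtain ⟨g, -, -, g2, -, -⟩ := hU'.uni ℕ c0 c1 _ _ _ k4
    have hlc : c.length = 2 := by
      have := congrArg List.length g2
      simpa using this.symm
    obtain ⟨e1, e2⟩ := pot_edge hU'.pot
    match c, hlc with
    | [u, v], _ =>
      simp at e1 e2
      rw [e1, e2]
  subst hcc
  have hθ' := pot_len hU'.pot
  rw [bw_labels_append, List.length_append] at hθ'
  simp only [labels, List.length_cons] at hθ'
  have hdrop : θ'.drop us1.length ≠ [] := by
    intro h0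
    rw [List.drop_eq_nil_iff] at h0
    omega
  obtain ⟨q, θ2, hq⟩ := List.exists_cons_of_ne_nil hdrop
  have hsplit : θ' = θ'.take us1.length ++ q :: θ2 := by
    rw [← hq, List.take_append_drop]
  rw [hsplit] at hU'
  exact (main d0 d1 _ θ2 q e' hU' (by rw [List.length_take]; omega)).1

end Pool.Agent.Helper77.CR
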